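import Pool.Agent.W809.ZQ.Stm

set_option autoImplicit false

open Set Filter Topology
open Pool.Agent.W809.ZQ

namespace Pool.Agent.W748.ZQ

section aux

variable {n : ℕ}

attribute [local instance] Matrix.linftyOpNormedRing Matrix.linftyOpNormedAlgebra

theorem deriv_exp (X : Mt n) :
    HasDerivAt (fun t : ℝ => NormedSpace.exp (t • X)) X 0 := by
  have h := hasDerivAt_exp_smul_const (𝕂 := ℝ) X (0 : ℝ)
  have e : NormedSpace.exp ((0 : ℝ) • X) * X = X := by
    rw [zero_smul, NormedSpace.exp_zero, one_mul]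
  exact h.congr_deriv e

theorem deriv_exp_neg (X : Mt n) :
    HasDerivAt (fun t : ℝ => NormedSpace.exp ((-t) • X)) (-X) 0 := by
  have h := deriv_exp (-X)
  have e : (fun t : ℝ => NormedSpace.exp ((-t) • X)) = fun t : ℝ => NormedSpace.exp (t • (-X)) := by
    funext t
    rw [smul_neg, neg_smul]
  rw [e]
  exact h

theorem lim_bracket (X Y : Mt n) :
    Tendsto (fun t : ℝ => t⁻¹ • (NormedSpace.exp (t • X) * Y * NormedSpace.exp ((-t) • X) - Y))
      (𝓝[≠] 0) (𝓝 (X * Y - Y * X)) := by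
  have h1 := ((deriv_exp X).mul_const Y).mul (deriv_exp_neg X)
  have h2 := h1.tendsto_slope_zero
  simp only [Pi.mul_apply, zero_add, zero_smul, neg_zero, NormedSpace.exp_zero, mul_one,
    one_mul, mul_neg, ← sub_eq_add_neg] at h2
  exact h2

theorem lim_skew (X : Mt n) :
    Tendsto (fun t : ℝ => t⁻¹ • (NormedSpace.exp (t • star X) * NormedSpace.exp (t • X) - 1))
      (𝓝[≠] 0) (𝓝 (star X + X)) := by
  have h1 := (deriv_exp (star X)).mul (deriv_exp X)
  have h2 := h1.tendsto_slope_zero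
  simp only [Pi.mul_apply, zero_add, zero_smul, NormedSpace.exp_zero, mul_one, one_mul] at h2
  exact h2

end aux

variable {n : ℕ}

theorem skew {N : Subgroup (U n)} {X : Mt n} (hX : X ∈ LL N) : star X = -X := by
  have h1 := lim_skew X
  have h2 : (fun t : ℝ => t⁻¹ • (NormedSpace.exp (t • star X) * NormedSpace.exp (t • X) - 1)) =
      fun _ => (0 : Mt n) := by
    funext t
    obtain ⟨u, -, hu⟩ := hX t
    have h3 : star (NormedSpace.exp (t • X)) = NormedSpace.exp (t • star X) := by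
      rw [NormedSpace.star_exp, star_smul]
      simp
    have h4 : star (u : Mt n) * (u : Mt n) = 1 := (Unitary.mem_iff.1 u.2).1
    rw [hu, h3] at h4
    rw [h4, sub_self, smul_zero]
  rw [h2] at h1
  have h5 := tendsto_nhds_unique h1 tendsto_const_nhds
  exact eq_neg_of_add_eq_zero_left h5

theorem exp_neg_eq {X : Mt n} (t : ℝ) (u : U n)
    (hu : (u : Mt n) = NormedSpace.exp (t • X)) :
    ((u⁻¹ : U n) : Mt n) = NormedSpace.exp ((-t) • X) := by
  have h1 : (u : Mt n) * ((u⁻¹ : U n) : Mt n) = 1 := by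
    rw [← Submonoid.coe_mul, mul_inv_cancel]; rfl
  have h3 : ((u⁻¹ : U n) : Mt n) = (u : Mt n)⁻¹ := (Matrix.inv_eq_right_inv h1).symm
  rw [h3, hu, neg_smul, Matrix.exp_neg]

theorem bracket_mem {N : Subgroup (U n)} {m : Submodule ℝ (Mt n)}
    (hm : ∀ g ∈ N, ∀ X ∈ m, (g : Mt n) * X * ((g⁻¹ : U n) : Mt n) ∈ m)
    {X Y : Mt n} (hX : X ∈ LL N) (hY : Y ∈ m) : X * Y - Y * X ∈ m := by
  have hcl : IsClosed (m : Set (Mt n)) := m.closed_of_finiteDimensional
  refine hcl.mem_of_tendsto (lim_bracket X Y) (Filter.Eventually.of_forall fun t => ?_)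
  obtain ⟨u, huN, hu⟩ := hX t
  have h1 := hm u huN Y hY
  rw [exp_neg_eq t u hu, hu] at h1
  exact m.smul_mem _ (m.sub_mem h1 hY)

/-- the real Frobenius form -/
noncomputable def Bf (n : ℕ) : LinearMap.BilinForm ℝ (Mt n) :=
  LinearMap.mk₂ ℝ (fun X Y => (Matrix.trace (X * star Y)).re)
    (by intro X X' Y; simp [add_mul, Matrix.trace_add])
    (by intro c X Y; simp [Matrix.smul_mul, Matrix.trace_smul])
    (by intro X Y Y'; simp [mul_add, Matrix.trace_add])
    (by intro c X Y; simp [Matrix.mul_smul, Matrix.trace_smul])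

theorem Bf_apply (X Y : Mt n) : Bf n X Y = (Matrix.trace (X * star Y)).re := rfl

theorem Bf_symm (X Y : Mt n) : Bf n X Y = Bf n Y X := by
  rw [Bf_apply, Bf_apply]
  have h : Y * star X = star (X * star Y) := by rw [star_mul, star_star]
  rw [h, Matrix.star_eq_conjTranspose (X * star Y), Matrix.trace_conjTranspose]
  simp

theorem Bf_self (X : Mt n) : Bf n X X = ∑ i, ∑ j, Complex.normSq (X i j) := by
  rw [Bf_apply, Matrix.trace]
  simp only [Matrix.diag_apply, Matrix.mul_apply, Matrix.star_apply, Complex.re_sum]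
  refine Finset.sum_congr rfl fun i _ => Finset.sum_congr rfl fun j _ => ?_
  simp [Complex.normSq_apply, Complex.mul_re]

theorem Bf_pos {X : Mt n} (h : Bf n X X = 0) : X = 0 := by
  rw [Bf_self] at h
  have h1 := (Finset.sum_eq_zero_iff_of_nonneg
    (fun i _ => Finset.sum_nonneg fun j _ => Complex.normSq_nonneg _)).1 h
  ext i j
  have h2 := (Finset.sum_eq_zero_iff_of_nonneg
    (fun j _ => Complex.normSq_nonneg (X i j))).1 (h1 i (Finset.mem_univ i))
  exact Complex.normSq_eq_zero.1 (h2 j (Finset.mem_univ j))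

theorem decomp (m : Submodule ℝ (Mt n)) (Z : Mt n) :
    ∃ Y ∈ m, ∃ W : Mt n, Z = Y + W ∧ ∀ X ∈ m, Bf n X W = 0 := by
  have hr : (Bf n).IsRefl := fun x y h => by rw [Bf_symm]; exact h
  have hd : Disjoint m ((Bf n).orthogonal m) := by
    rw [Submodule.disjoint_def]
    intro x hx hx'
    exact Bf_pos ((LinearMap.BilinForm.mem_orthogonal_iff.1 hx') x hx)
  have hc := (LinearMap.BilinForm.isCompl_orthogonal_iff_disjoint hr (W := m)).2 hd
  have hZ : Z ∈ m ⊔ (Bf n).orthogonal m := by rw [hc.sup_eq_top]; trivial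
  obtain ⟨Y, hY, W, hW, h⟩ := Submodule.mem_sup.1 hZ
  exact ⟨Y, hY, W, h.symm, fun X hX => (LinearMap.BilinForm.mem_orthogonal_iff.1 hW) X hX⟩

/-- ZQ-SPLIT -/
theorem split (hADD : S_ADD) : S_SPLIT := by
  intro n N hN m hmL hmN Z hZ
  obtain ⟨Y, hY, W, hZW, hort⟩ := decomp m Z
  have hWL : W ∈ LL N := by
    have : W = Z + (-1 : ℝ) • Y := by rw [hZW]; simp
    rw [this]
    exact hADD n N hN Z hZ _ (LL_smul (hmL Y hY) _)
  refine ⟨Y, hY, W, hWL, hZW, ?_⟩
  intro X hX
  have hD : W * X - X * W ∈ m := bracket_mem hmN hWL hX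
  have key : ∀ X' ∈ m, Bf n (W * X - X * W) X' = 0 := by
    intro X' hX'
    have hV : X * X' - X' * X ∈ m := bracket_mem hmN (hmL X hX) hX'
    have h0 := hort _ hV
    rw [Bf_symm, Bf_apply, skew (hmL _ hV)] at h0
    rw [Bf_apply, skew (hmL _ hX')]
    have e1 : Matrix.trace ((W * X - X * W) * -X') =
        Matrix.trace (W * -(X * X' - X' * X)) := by
      have e2 : Matrix.trace (X * W * X') = Matrix.trace (W * X' * X) := by
        rw [mul_assoc, Matrix.trace_mul_comm]
      simp only [mul_neg, sub_mul, mul_sub, Matrix.trace_neg, Matrix.trace_sub, ← mul_assoc]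
      rw [e2]
    rw [e1]
    exact h0
  have h1 := Bf_pos (key _ hD)
  exact (sub_eq_zero.1 h1).symm

end Pool.Agent.W748.ZQ
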